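import Pool.Agent.N246.BX.Neg

/-!
# Does `BMO ↪ BMO_X` force `BMO_X ↪ BMO`?

Yes, if the constants in the quasi-triangle inequalities of the spaces `X_Q` are bounded uniformly
in the cube `Q` (in particular for every family of Banach function spaces); no, if they are not.
-/

set_option autoImplicit false

namespace Pool.Agent.Results.MP_ea8870_an.ReverseEmbedding

open MeasureTheory Pool.Agent.R884.BMOStar Pool.Agent.N246.BX

/-- **Main theorem.** Let `n ≥ 1`. For every normalized family of quasi-Banach function spaces whose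
quasi-triangle constants are uniformly bounded, `BMO ↪ BMO_X` implies `BMO_X ↪ BMO`. Without the
uniform bound the implication fails, even for the inclusion of sets. -/
theorem result (n : ℕ) (hn : 1 ≤ n) :
    (∀ X : Family n, (∀ Q, IsQuasiBanachFunctionNorm Q (X Q)) → UniformQuasiTriangle X →
      IsNormalized X → Embeds (BMO n) (BMOX X) (bmoX L1) (bmoX X) →
      Embeds (BMOX X) (BMO n) (bmoX X) (bmoX L1)) ∧
    (∃ X : Family n, (∀ Q, IsQuasiBanachFunctionNorm Q (X Q)) ∧ IsNormalized X ∧
      Embeds (BMO n) (BMOX X) (bmoX L1) (bmoX X) ∧ ¬ BMOX X ⊆ BMO n) :=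
  ⟨fun _ hX hK hN hE => positive hn hX hK hN hE, negative hn⟩

end Pool.Agent.Results.MP_ea8870_an.ReverseEmbedding
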